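import Pool.Agent.MWH.StmtsC
import Pool.Agent.MWS.StmtsA

set_option autoImplicit false

namespace Pool.Agent.MWH.H23

open Pool.Agent.Helper14_MV Pool.Agent.Helper2_MV Pool.Agent.MVO Pool.Agent.MWL Pool.Agent.MWS

theorem enn (hLRN : MWS.LrnStmt) (hLT3 : Lt3Stmt) (hKK2 : Kk2Stmt) : EnnStmt := by
  intro β h k a b i hv na nb la lb ha hb
  obtain ⟨h8, hJ⟩ := h
  have hR : LR 1 (FC.ofFIC β) := hLRN β β h8.toBaseH.toBaseR (FIC.le_refl' _)
  have h1 := hLT3 (FC.ofFIC β) hR hJ k a na hv.da la i hv.ik ha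
  have h2 := hLT3 (FC.ofFIC β) hR hJ k b nb hv.db lb i hv.ik hb
  have h3 := hKK2 β h8 k a b i hv ha hb h1 h2
  have h4 : Tr β k a b i Stt.xy Stt.yx := by
    refine h3 _ _ ?_ ?_
    · intro h0
      cases h0
    · intro h0
      cases h0
  refine ⟨[], ?_, ?_⟩
  · intro e he
    cases he
  · intro θ hθ _
    refine ⟨fun _ e he => ?_, fun _ => hθ _ _ h4⟩
    cases he

end Pool.Agent.MWH.H23
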