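import Pool.Agent.MWH.StmtsC

set_option autoImplicit false

namespace Pool.Agent.MWH.H23

open Pool.Agent.Helper14_MV Pool.Agent.Helper2_MV Pool.Agent.MVO Pool.Agent.MWL Pool.Agent.MWS

theorem j11_tr {θ : FIC} {u v w : List ℕ} (h : RR θ u v) (h' : RR θ v w) : RR θ u w :=
  θ.trans h h'

theorem j11_vs (a b : ℕ → ℕ) (i : ℕ) : Vs a b i Stt.xy := by
  intro h
  cases h

theorem j11_vs' (a b : ℕ → ℕ) (i : ℕ) : Vs a b i Stt.yx := by
  intro h
  cases h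

theorem j11 (hJPC : JpcStmt) (hABJ : AbjStmt) (hABO : AboStmt) (hLHR : LhrStmt)
    (hJ2S : J2sStmt) : J11Stmt := by
  intro β h
  have hB := h.toBaseH
  have v0 : Vd 3 (vc [1, 0, 1, 0]) (vc [1, 2, 0, 2]) 0 :=
    ⟨by decide, by decide, by decide, by decide, by decide, by decide⟩
  have l0 : LL2 3 (vc [1, 0, 1, 0]) 0 2 :=
    ⟨by decide, by decide, by decide, by decide, by decide⟩
  refine hJPC β hB 3 (vc [1, 0, 1, 0]) (vc [1, 2, 0, 2]) 0 0 2 (fun j => j = 1 ∨ j = 3) v0 l0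
    ?_ Stt.xy Stt.yx (Or.inl ⟨rfl, rfl, rfl, rfl⟩) ?_ ?_
  · intro j hj hF
    rcases hF with h1 | h1
    · rw [h1]
      decide
    · rw [h1]
      decide
  · intro θ hθ _ hJ
    exact hJ2S β θ h hθ hJ 3 _ _ 0 0 2 v0 l0
      (Or.inr (Or.inr ⟨rfl, 1, by decide, by decide, by decide⟩)) _ _ (j11_vs _ _ _)
      (j11_vs' _ _ _)
  · intro θ hθ _ j hj hF hAb
    have hj2 : j = 0 ∨ j = 2 := by
      by_contra h1
      apply hF
      omega
    rcases hj2 with h1 | h1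
    · rw [h1] at hAb
      obtain ⟨v1, h2⟩ := hABJ β θ hB hθ 3 _ _ 0 v0 0 (by decide) hAb (Or.inl rfl)
      obtain ⟨-, h3⟩ := hLHR β h 3 _ _ 0 2 v1 rfl (by decide) (by decide) (by decide) (by decide)
      have h4 := h3 ⟨1, by decide, by decide, by decide⟩ Stt.xy Stt.yx (j11_vs _ _ _)
        (j11_vs' _ _ _)
      exact j11_tr (h2 Stt.xy (j11_vs _ _ _)) (j11_tr (hθ _ _ h4)
        (RR.symm (h2 Stt.yx (j11_vs' _ _ _))))
    · rw [h1] at hAb
      exact hABO β θ hB hθ 3 _ _ 0 v0 2 (by decide) (by decide)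
        (Or.inr ⟨by decide, hAb⟩) _ _ (j11_vs _ _ _) (j11_vs' _ _ _)

end Pool.Agent.MWH.H23
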