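import Pool.Agent.MWH.StmtsB

set_option autoImplicit false

namespace Pool.Agent.MWH.H23

open Pool.Agent.Helper14_MV Pool.Agent.Helper2_MV Pool.Agent.MVO Pool.Agent.MWL Pool.Agent.MWS

theorem tr_light {θ : FIC} {k : ℕ} {a b : ℕ → ℕ} {i : ℕ} (ha : a i = 1) (hb : b i = 1)
    (h : Tr θ k a b i Stt.xy Stt.yx) : TrA θ k a b i := by
  intro s s' hs hs'
  have no : ∀ t : Stt, Vs a b i t → t ≠ Stt.ov := by
    intro t ht h0
    rcases ht h0 with h1 | h1 <;> omega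
  have n1 := no s hs
  have n2 := no s' hs'
  cases s with
  | xy =>
    cases s' with
    | xy => exact RR.refl _
    | yx => exact h
    | ov => exact absurd rfl n2
  | yx =>
    cases s' with
    | xy => exact h.symm
    | yx => exact RR.refl _
    | ov => exact absurd rfl n2
  | ov => exact absurd rfl n1

/-- `k2` pushed: the heavy block of the first letter comes first -/
theorem kk2_lt (hPIN : PinStmt) {β : FIC} (h : S8 β) {k : ℕ} {a b : ℕ → ℕ} {i m n : ℕ}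
    (hv : Vd k a b i) (ha : a i = 1) (hb : b i = 1) (him : i < m) (hmn : m < n) (hn : n ≤ k)
    (h2 : 2 ≤ a m) (h3 : 2 ≤ b n) : Tr β k a b i Stt.xy Stt.yx := by
  have hk : Tr β 2 (vc [1, 2, 0]) (vc [1, 0, 2]) 0 Stt.xy Stt.yx := h.k2
  have v0 : Vd 2 (vc [1, 2, 0]) (vc [1, 0, 2]) 0 :=
    ⟨by decide, by decide, by decide, by decide, by decide, by decide⟩
  refine hPIN β β h.toBaseH (FIC.le_refl' _) 2 k (vc [i, m, n]) (vc [1, 2, 0]) (vc [1, 0, 2]) a b 0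
    ?_ ?_ v0 hv ?_ ?_ ?_ Stt.xy Stt.yx ?_ ?_ hk
  · intro j hj
    interval_cases j
    · exact him
    · exact hmn
  · exact hn
  · intro j hj
    interval_cases j
    · change (1 ≠ 0 → a i ≠ 0) ∧ (2 ≤ 1 → 2 ≤ a i) ∧ (1 ≠ 0 → b i ≠ 0) ∧ (2 ≤ 1 → 2 ≤ b i)
      omega
    · change (2 ≠ 0 → a m ≠ 0) ∧ (2 ≤ 2 → 2 ≤ a m) ∧ (0 ≠ 0 → b m ≠ 0) ∧ (2 ≤ 0 → 2 ≤ b m)
      omega
    · change (0 ≠ 0 → a n ≠ 0) ∧ (2 ≤ 0 → 2 ≤ a n) ∧ (2 ≠ 0 → b n ≠ 0) ∧ (2 ≤ 2 → 2 ≤ b n)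
      omega
  · change 1 = 1 ↔ a i = 1
    omega
  · change 1 = 1 ↔ b i = 1
    omega
  · intro h0
    cases h0
  · intro h0
    cases h0

theorem kk2 (hSWT : SwtStmt) (hPIN : PinStmt) : Kk2Stmt := by
  intro β h k a b i hv ha hb hm hn
  obtain ⟨m, hm1, hm2, hm3⟩ := hm
  obtain ⟨n, hn1, hn2, hn3⟩ := hn
  refine tr_light ha hb ?_
  rcases Nat.lt_trichotomy m n with h1 | h1 | h1
  · exact kk2_lt hPIN h hv ha hb hm1 h1 hn2 hm3 hn3
  · exfalso
    rcases hv.un m hm2 (by omega) with h2 | h2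
    · omega
    · rw [h1] at h2
      omega
  · obtain ⟨hv', h2⟩ := hSWT β β h.toBaseH (FIC.le_refl' _) k a b i hv
    have h3 := kk2_lt hPIN h hv' hb ha hn1 h1 hm2 hn3 hm3
    refine ((h2 Stt.xy Stt.yx ?_ ?_).2).2 ?_
    · intro h0
      cases h0
    · intro h0
      cases h0
    · exact RR.symm h3

end Pool.Agent.MWH.H23
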